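import Mathlib

/-!
# Young's inequality for the Poisson kernel
-/

set_option autoImplicit false

namespace Pool.Agent.R252.AC

open MeasureTheory Set Metric Complex Real InnerProductSpace
open scoped Real

theorem log_young (X Y : ℝ) (hX : 0 < X) (hX4 : X ≤ 4) (hY : 0 < Y) (hY4 : Y ≤ 4) :
    Real.log X + (X - Y) ^ 2 / 64 ≤ Real.log Y + (X - Y) / Y := by
  obtain ⟨x, hx, rfl⟩ : ∃ x, 0 < x ∧ X = x ^ 2 :=
    ⟨√X, Real.sqrt_pos.2 hX, (Real.sq_sqrt hX.le).symm⟩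
  obtain ⟨y, hy, rfl⟩ : ∃ y, 0 < y ∧ Y = y ^ 2 :=
    ⟨√Y, Real.sqrt_pos.2 hY, (Real.sq_sqrt hY.le).symm⟩
  have hx2 : x ≤ 2 := by nlinarith
  have hy2 : y ≤ 2 := by nlinarith
  have h1 := Real.log_le_sub_one_of_pos (div_pos hx hy)
  rw [Real.log_div hx.ne' hy.ne'] at h1
  rw [Real.log_pow, Real.log_pow]
  have h2 : (x ^ 2 - y ^ 2) / y ^ 2 - 2 * (x / y - 1) = (x - y) ^ 2 / y ^ 2 := by
    field_simp
    ring
  have h3 : (x ^ 2 - y ^ 2) ^ 2 / 64 ≤ (x - y) ^ 2 / y ^ 2 := by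
    rw [div_le_div_iff₀ (by norm_num) (by positivity)]
    have h4 : (x + y) * y ≤ 8 := by nlinarith
    have h5 : 0 ≤ (x + y) * y := by positivity
    have h6 : ((x + y) * y) ^ 2 ≤ 64 := by nlinarith
    have h7 : (x ^ 2 - y ^ 2) ^ 2 * y ^ 2 = (x - y) ^ 2 * ((x + y) * y) ^ 2 := by ring
    rw [h7]
    exact mul_le_mul_of_nonneg_left h6 (sq_nonneg _)
  push_cast
  linarith

/-- the cosine of the angle between `w` and `z`, `‖w‖ = r`, `‖z‖ = ρ` -/
noncomputable def g0 (ρ r : ℝ) (w z : ℂ) : ℝ := (w.re * z.re + w.im * z.im) / (r * ρ)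

theorem ptw (ρ r : ℝ) (hr : 0 < r) (hρ : r < ρ) (hρ1 : ρ ≤ 1) (w z : ℂ) (hw : ‖w‖ = r)
    (hz : ‖z‖ = ρ) (g : ℝ) (hg : |g| ≤ 1) :
    poissonKernel 0 w z * g + ((ρ ^ 2 - r ^ 2) * (ρ * r) / 32) * (g - g0 ρ r w z) ^ 2 ≤
      poissonKernel 0 w z * g0 ρ r w z + ((ρ ^ 2 - r ^ 2) / (2 * ρ * r)) *
        (2 * Real.log ‖z - w‖ - Real.log (ρ ^ 2 + r ^ 2 - 2 * ρ * r * g)) := by
  have hρ0 : 0 < ρ := hr.trans hρ
  set G := g0 ρ r w z with hG
  have hG' : w.re * z.re + w.im * z.im = r * ρ * G := by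
    rw [hG, g0]; field_simp
  have hnw : w.re ^ 2 + w.im ^ 2 = r ^ 2 := by
    rw [← hw, ← Complex.normSq_eq_norm_sq, Complex.normSq_apply]; ring
  have hnz : z.re ^ 2 + z.im ^ 2 = ρ ^ 2 := by
    rw [← hz, ← Complex.normSq_eq_norm_sq, Complex.normSq_apply]; ring
  have hY : ‖z - w‖ ^ 2 = ρ ^ 2 + r ^ 2 - 2 * ρ * r * G := by
    rw [← Complex.normSq_eq_norm_sq, Complex.normSq_apply, Complex.sub_re, Complex.sub_im]
    nlinarith
  have hYp : 0 < ‖z - w‖ := by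
    rw [norm_pos_iff, sub_ne_zero]
    rintro rfl
    linarith
  have hY2 : ‖z - w‖ ≤ 2 := by
    calc ‖z - w‖ ≤ ‖z‖ + ‖w‖ := norm_sub_le _ _
      _ ≤ 2 := by rw [hw, hz]; linarith
  rw [abs_le] at hg
  have hrr : 0 < ρ * r := by positivity
  have hX0 : 0 < ρ ^ 2 + r ^ 2 - 2 * ρ * r * g := by nlinarith [sq_pos_of_pos (sub_pos.2 hρ)]
  have hX4 : ρ ^ 2 + r ^ 2 - 2 * ρ * r * g ≤ 4 := by nlinarith
  have key := log_young _ (‖z - w‖ ^ 2) hX0 hX4 (by positivity) (by nlinarith)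
  have hP : poissonKernel 0 w z = (ρ ^ 2 - r ^ 2) / ‖z - w‖ ^ 2 := by
    rw [poissonKernel_def]
    simp [hw, hz]
  rw [hP]
  have hc : 0 < (ρ ^ 2 - r ^ 2) / (2 * ρ * r) := by
    apply div_pos _ (by positivity)
    nlinarith
  have k2 := mul_le_mul_of_nonneg_left key hc.le
  rw [Real.log_pow] at k2
  have e1 : (ρ ^ 2 - r ^ 2) / (2 * ρ * r) * ((ρ ^ 2 + r ^ 2 - 2 * ρ * r * g - ‖z - w‖ ^ 2) ^ 2 / 64)
      = ((ρ ^ 2 - r ^ 2) * (ρ * r) / 32) * (g - G) ^ 2 := by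
    rw [hY]
    field_simp
    ring
  have e2 : (ρ ^ 2 - r ^ 2) / (2 * ρ * r) * ((ρ ^ 2 + r ^ 2 - 2 * ρ * r * g - ‖z - w‖ ^ 2) /
      ‖z - w‖ ^ 2) = - ((ρ ^ 2 - r ^ 2) / ‖z - w‖ ^ 2 * g) + (ρ ^ 2 - r ^ 2) / ‖z - w‖ ^ 2 * G := by
    have : ρ ^ 2 + r ^ 2 - 2 * ρ * r * g - ‖z - w‖ ^ 2 = 2 * ρ * r * (G - g) := by rw [hY]; ring
    rw [this]
    field_simp
    ring
  rw [mul_add, mul_add, e1, e2] at k2
  push_cast at k2
  linarith

theorem g0_harm (ρ r : ℝ) (w : ℂ) (s : Set ℂ) : HarmonicOnNhd (g0 ρ r w) s := by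
  have : g0 ρ r w = fun z => (((starRingEnd ℂ w) / ((r * ρ : ℝ) : ℂ)) * z).re := by
    ext z
    rw [g0, div_mul_eq_mul_div, Complex.div_ofReal_re]
    simp
  intro x _
  rw [this]
  exact AnalyticAt.harmonicAt_re (f := fun z => ((starRingEnd ℂ w) / ((r * ρ : ℝ) : ℂ)) * z)
    (by fun_prop)

theorem poiss (ρ : ℝ) (u : ℂ → ℝ) (hu : HarmonicOnNhd u (closedBall 0 ρ)) (w : ℂ)
    (hw : ‖w‖ < ρ) : circleAverage (fun z => poissonKernel 0 w z * u z) 0 ρ = u w :=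
  hu.circleAverage_poissonKernel_smul (by simpa using hw)

theorem pk_cont (ρ : ℝ) (hρ : 0 < ρ) (w : ℂ) (hw : ‖w‖ < ρ) :
    ContinuousOn (fun z => poissonKernel 0 w z) (sphere 0 |ρ|) := by
  unfold poissonKernel
  refine ContinuousOn.div (by fun_prop) (by fun_prop) ?_
  intro z hz
  rw [abs_of_pos hρ, mem_sphere_zero_iff_norm] at hz
  have : z ≠ w := by rintro rfl; linarith
  simpa [sub_eq_zero] using this

theorem pk_nonneg (ρ : ℝ) (w z : ℂ) (hw : ‖w‖ < ρ) (hz : ‖z‖ = ρ) : 0 ≤ poissonKernel 0 w z := by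
  rw [poissonKernel_def]
  apply div_nonneg _ (by positivity)
  simp only [sub_zero, hz]
  nlinarith [norm_nonneg w]

theorem pk_le (ρ : ℝ) (w z : ℂ) (hw : ‖w‖ < ρ) (hz : ‖z‖ = ρ) :
    poissonKernel 0 w z ≤ 2 * ρ / (ρ - ‖w‖) := by
  have h := re_herglotzRieszKernel_le (c := 0) (R := ρ) (z := z) (w := w) (by simpa using hz)
    (by simpa using hw)
  rw [poissonKernel_eq_re_herglotzRieszKernel, Function.comp_apply, herglotzRieszKernel_def]
  refine h.trans ?_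
  rw [sub_zero]
  apply div_le_div_of_nonneg_right _ (by linarith)
  linarith

theorem yavg (ρ r : ℝ) (hr : 0 < r) (hρ : r < ρ) (hρ1 : ρ ≤ 1) (w : ℂ) (hw : ‖w‖ = r)
    (u : ℂ → ℝ) (hu : HarmonicOnNhd u (closedBall 0 ρ)) (hu1 : ∀ z, ‖z‖ = ρ → |u z| ≤ 1) :
    u w + ((ρ ^ 2 - r ^ 2) * (ρ * r) / 32) * circleAverage (fun z => (u z - g0 ρ r w z) ^ 2) 0 ρ ≤
      r / ρ + ((ρ ^ 2 - r ^ 2) / (2 * ρ * r)) *
        (2 * Real.log ρ - circleAverage (fun z => Real.log (ρ ^ 2 + r ^ 2 - 2 * ρ * r * u z)) 0 ρ) := by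
  have hρ0 : 0 < ρ := hr.trans hρ
  have habs : |ρ| = ρ := abs_of_pos hρ0
  have huc : ContinuousOn u (sphere 0 |ρ|) := by
    rw [habs]
    exact hu.continuousOn.mono sphere_subset_closedBall
  have hgc : ContinuousOn (g0 ρ r w) (sphere 0 |ρ|) :=
    (g0_harm ρ r w (sphere 0 |ρ|)).continuousOn
  have hPc := pk_cont ρ hρ0 w (by rw [hw]; exact hρ)
  have hpos : ∀ z ∈ sphere (0 : ℂ) |ρ|, ρ ^ 2 + r ^ 2 - 2 * ρ * r * u z ≠ 0 := by
    intro z hz
    rw [habs, mem_sphere_zero_iff_norm] at hz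
    have := (abs_le.1 (hu1 z hz)).2
    have : 0 < ρ * r := by positivity
    nlinarith [sq_pos_of_pos (sub_pos.2 hρ)]
  have hne : ∀ z ∈ sphere (0 : ℂ) |ρ|, ‖z - w‖ ≠ 0 := by
    intro z hz
    rw [habs, mem_sphere_zero_iff_norm] at hz
    rw [norm_ne_zero_iff, sub_ne_zero]
    rintro rfl
    linarith
  have hL1 : ContinuousOn (fun z => Real.log (ρ ^ 2 + r ^ 2 - 2 * ρ * r * u z)) (sphere 0 |ρ|) :=
    ContinuousOn.log (by fun_prop) hpos
  have hL2 : ContinuousOn (fun z => Real.log ‖z - w‖) (sphere 0 |ρ|) :=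
    ContinuousOn.log (by fun_prop) hne
  have c1 : CircleIntegrable (fun z => poissonKernel 0 w z * u z) 0 ρ :=
    (hPc.mul huc).circleIntegrable'
  have c2 : CircleIntegrable (fun z => ((ρ ^ 2 - r ^ 2) * (ρ * r) / 32) * (u z - g0 ρ r w z) ^ 2) 0 ρ :=
    (continuousOn_const.mul ((huc.sub hgc).pow 2)).circleIntegrable'
  have c3 : CircleIntegrable (fun z => poissonKernel 0 w z * g0 ρ r w z) 0 ρ :=
    (hPc.mul hgc).circleIntegrable'
  have c4 : CircleIntegrable (fun z => 2 * Real.log ‖z - w‖) 0 ρ :=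
    (continuousOn_const.mul hL2).circleIntegrable'
  have c5 : CircleIntegrable (fun z => Real.log (ρ ^ 2 + r ^ 2 - 2 * ρ * r * u z)) 0 ρ :=
    hL1.circleIntegrable'
  have c6 : CircleIntegrable (fun z => ((ρ ^ 2 - r ^ 2) / (2 * ρ * r)) *
      (2 * Real.log ‖z - w‖ - Real.log (ρ ^ 2 + r ^ 2 - 2 * ρ * r * u z))) 0 ρ :=
    (continuousOn_const.mul ((continuousOn_const.mul hL2).sub hL1)).circleIntegrable'
  have main := circleAverage_mono (c1.add c2) (c3.add c6) (fun z hz => by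
    rw [habs, mem_sphere_zero_iff_norm] at hz
    exact ptw ρ r hr hρ hρ1 w z hw hz (u z) (hu1 z hz))
  rw [circleAverage_add c1 c2, circleAverage_add c3 c6] at main
  rw [poiss ρ u hu w (by rw [hw]; exact hρ),
    poiss ρ (g0 ρ r w) (g0_harm ρ r w _) w (by rw [hw]; exact hρ)] at main
  have e1 : circleAverage (fun z => ((ρ ^ 2 - r ^ 2) * (ρ * r) / 32) * (u z - g0 ρ r w z) ^ 2) 0 ρ =
      ((ρ ^ 2 - r ^ 2) * (ρ * r) / 32) * circleAverage (fun z => (u z - g0 ρ r w z) ^ 2) 0 ρ := by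
    have := circleAverage_fun_smul (c := 0) (R := ρ) (a := (ρ ^ 2 - r ^ 2) * (ρ * r) / 32)
      (f := fun z : ℂ => (u z - g0 ρ r w z) ^ 2)
    simpa [smul_eq_mul] using this
  have e2 : circleAverage (fun z => ((ρ ^ 2 - r ^ 2) / (2 * ρ * r)) *
      (2 * Real.log ‖z - w‖ - Real.log (ρ ^ 2 + r ^ 2 - 2 * ρ * r * u z))) 0 ρ =
      ((ρ ^ 2 - r ^ 2) / (2 * ρ * r)) * (2 * Real.log ρ -
        circleAverage (fun z => Real.log (ρ ^ 2 + r ^ 2 - 2 * ρ * r * u z)) 0 ρ) := by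
    have h1 := circleAverage_fun_smul (c := 0) (R := ρ) (a := (ρ ^ 2 - r ^ 2) / (2 * ρ * r))
      (f := fun z : ℂ => 2 * Real.log ‖z - w‖ - Real.log (ρ ^ 2 + r ^ 2 - 2 * ρ * r * u z))
    simp only [smul_eq_mul] at h1
    rw [h1, circleAverage_fun_sub c4 c5]
    have h2 := circleAverage_fun_smul (c := 0) (R := ρ) (a := (2 : ℝ))
      (f := fun z : ℂ => Real.log ‖z - w‖)
    simp only [smul_eq_mul] at h2
    rw [h2, circleAverage_log_norm_sub_const_of_mem_closedBall (by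
      rw [mem_closedBall_zero_iff, hw, habs]; exact hρ.le)]
  have e3 : g0 ρ r w w = r / ρ := by
    have hnw : w.re * w.re + w.im * w.im = r ^ 2 := by
      rw [← hw, ← Complex.normSq_eq_norm_sq, Complex.normSq_apply]
    rw [g0, hnw]
    field_simp
  rw [e1, e2, e3] at main
  exact main

/-- maximum principle -/
theorem maxp (r : ℝ) (hr : 0 < r) (u : ℂ → ℝ) (hu : HarmonicOnNhd u (closedBall 0 r)) (b : ℝ)
    (hb : ∀ z, ‖z‖ = r → u z ≤ b) (w : ℂ) (hw : ‖w‖ ≤ r) : u w ≤ b := by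
  rcases hw.eq_or_lt with h | h
  · exact hb w h
  · have hPc := pk_cont r hr w h
    have huc : ContinuousOn u (sphere 0 |r|) := by
      rw [abs_of_pos hr]
      exact hu.continuousOn.mono sphere_subset_closedBall
    have c1 : CircleIntegrable (fun z => poissonKernel 0 w z * u z) 0 r :=
      (hPc.mul huc).circleIntegrable'
    have c2 : CircleIntegrable (fun z => poissonKernel 0 w z * b) 0 r :=
      (hPc.mul continuousOn_const).circleIntegrable'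
    have main := circleAverage_mono c1 c2 (fun z hz => by
      rw [abs_of_pos hr, mem_sphere_zero_iff_norm] at hz
      exact mul_le_mul_of_nonneg_left (hb z hz) (pk_nonneg r w z h hz))
    rw [poiss r u hu w h, poiss r (fun _ => b) (fun x _ => harmonicAt_const b) w h] at main
    exact main

/-- Cauchy-Schwarz for circle averages -/
theorem cs (ρ C : ℝ) (hρ : 0 < ρ) (hC : 0 < C) (Q v : ℂ → ℝ) (hQ : ContinuousOn Q (sphere 0 |ρ|))
    (hv : ContinuousOn v (sphere 0 |ρ|)) (hQC : ∀ z, ‖z‖ = ρ → |Q z| ≤ C) :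
    (circleAverage (fun z => Q z * v z) 0 ρ) ^ 2 ≤ C ^ 2 * circleAverage (fun z => v z ^ 2) 0 ρ := by
  set T := circleAverage (fun z => Q z * v z) 0 ρ with hT
  set S := circleAverage (fun z => v z ^ 2) 0 ρ with hS
  have c1 : CircleIntegrable (fun z => (2 * C ^ 2 * T) * (Q z * v z)) 0 ρ :=
    (continuousOn_const.mul (hQ.mul hv)).circleIntegrable'
  have c2 : CircleIntegrable (fun z => C ^ 4 * v z ^ 2) 0 ρ :=
    (continuousOn_const.mul (hv.pow 2)).circleIntegrable'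
  have c3 : CircleIntegrable (fun _ => T ^ 2 * C ^ 2) 0 ρ := circleIntegrable_const _ _ _
  have main := circleAverage_mono c1 (c2.add c3) (fun z hz => by
    rw [abs_of_pos hρ, mem_sphere_zero_iff_norm] at hz
    have h1 := hQC z hz
    have h2 : Q z ^ 2 ≤ C ^ 2 := by
      rw [← sq_abs (Q z)]
      exact pow_le_pow_left₀ (abs_nonneg _) h1 2
    simp only [Pi.add_apply]
    nlinarith [sq_nonneg (C ^ 2 * v z - T * Q z), mul_le_mul_of_nonneg_left h2 (sq_nonneg T)])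
  rw [circleAverage_add c2 c3, circleAverage_const] at main
  have h1 := circleAverage_fun_smul (c := 0) (R := ρ) (a := 2 * C ^ 2 * T)
    (f := fun z : ℂ => Q z * v z)
  have h2 := circleAverage_fun_smul (c := 0) (R := ρ) (a := C ^ 4) (f := fun z : ℂ => v z ^ 2)
  simp only [smul_eq_mul] at h1 h2
  rw [h1, h2, ← hT, ← hS] at main
  have h3 : 0 ≤ C ^ 2 * (C ^ 2 * S - T ^ 2) := by nlinarith
  have h4 : 0 ≤ C ^ 2 * S - T ^ 2 := by
    by_contra h
    push Not at h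
    nlinarith [pow_pos hC 2]
  linarith

end Pool.Agent.R252.AC
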