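import Pool.Agent.R252.AC.Ury
import Pool.Agent.R252.AC.Yng

/-!
# The area of the image of a disk under a harmonic self-map
-/

set_option autoImplicit false

namespace Pool.Agent.R252.AC

open MeasureTheory Set Metric Complex Real InnerProductSpace
open scoped Real

theorem sup_abs (α : ℝ) (z : ℂ) : |sup α z| ≤ ‖z‖ := by
  rw [sup]
  refine (Complex.abs_re_le_norm _).trans ?_
  rw [norm_mul, Complex.norm_exp]
  simp

theorem sup_cont : Continuous (fun p : ℝ × ℂ => sup p.1 p.2) := by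
  unfold sup
  fun_prop

theorem sup_per (z : ℂ) : Function.Periodic (fun α => sup α z) (2 * π) := by
  intro α
  simp only [sup_eq, Real.cos_add_two_pi, Real.sin_add_two_pi]

/-- as a continuous linear map -/
noncomputable def supL (α : ℝ) : ℂ →L[ℝ] ℝ :=
  Complex.reCLM.comp (ContinuousLinearMap.mul ℝ ℂ (cexp (-(α * I))))

theorem supL_apply (α : ℝ) (z : ℂ) : supL α z = sup α z := rfl

theorem sup_harm (α : ℝ) (f : ℂ → ℂ) (s : Set ℂ) (hf : HarmonicOnNhd f s) :
    HarmonicOnNhd (fun z => sup α (f z)) s :=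
  hf.comp_CLM (supL α)

theorem argpos (ρ r : ℝ) (hr : 0 < r) (hρ : r < ρ) (g : ℝ) (hg : g ≤ 1) :
    0 < ρ ^ 2 + r ^ 2 - 2 * ρ * r * g := by
  have : 0 < ρ * r := mul_pos (hr.trans hρ) hr
  nlinarith [sq_pos_of_pos (sub_pos.2 hρ)]

theorem logavg (ρ r : ℝ) (hr : 0 < r) (hρ : r < ρ) (ζ : ℂ) (hζ : ‖ζ‖ ≤ 1) :
    2 * π * (2 * Real.log ρ) ≤
      ∫ α in (0 : ℝ)..2 * π, Real.log (ρ ^ 2 + r ^ 2 - 2 * ρ * r * sup α ζ) := by
  have hρ0 : 0 < ρ := hr.trans hρ
  have hpi : (0 : ℝ) < 2 * π := by positivity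
  set ξ : ℂ := cexp (arg ζ * I) with hξ
  set t : ℝ := ‖ζ‖ with ht
  have h1 : ζ = (t : ℂ) * ξ := (Complex.norm_mul_exp_arg_mul_I ζ).symm
  have hξ1 : ‖ξ‖ = 1 := Complex.norm_exp_ofReal_mul_I _
  have ht0 : 0 ≤ t := norm_nonneg _
  have hs : ∀ α, sup α ζ = t * sup α ξ := by
    intro α
    rw [h1, ← Complex.real_smul, sup_smul]
  have hs1 : ∀ α, sup α ξ ≤ 1 := fun α => by
    have := sup_abs α ξ
    rw [hξ1] at this
    exact (abs_le.1 this).2
  have hnξ : ξ.re ^ 2 + ξ.im ^ 2 = 1 := by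
    have : ‖ξ‖ ^ 2 = 1 := by rw [hξ1]; norm_num
    rw [← Complex.normSq_eq_norm_sq, Complex.normSq_apply] at this
    linarith
  have hw : ‖(r : ℂ) * ξ‖ = r := by
    rw [norm_mul, hξ1, mul_one, Complex.norm_real, Real.norm_eq_abs, abs_of_pos hr]
  have hcm : ∀ α : ℝ, ‖circleMap 0 ρ α - (r : ℂ) * ξ‖ ^ 2 =
      ρ ^ 2 + r ^ 2 - 2 * ρ * r * sup α ξ := by
    intro α
    rw [← Complex.normSq_eq_norm_sq, Complex.normSq_apply, sup_eq, circleMap_zero]
    simp only [Complex.sub_re, Complex.sub_im, Complex.re_ofReal_mul, Complex.im_ofReal_mul,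
      Complex.exp_ofReal_mul_I_re, Complex.exp_ofReal_mul_I_im]
    have := Real.sin_sq_add_cos_sq α
    nlinarith
  have hA : ∀ α : ℝ, Real.log (ρ ^ 2 + r ^ 2 - 2 * ρ * r * sup α ξ) =
      2 * Real.log ‖circleMap 0 ρ α - (r : ℂ) * ξ‖ := by
    intro α
    rw [← hcm, Real.log_pow]
    norm_num
  have hint : ∫ α in (0 : ℝ)..2 * π, Real.log (ρ ^ 2 + r ^ 2 - 2 * ρ * r * sup α ξ) =
      2 * π * (2 * Real.log ρ) := by
    have h2 := circleAverage_log_norm_sub_const_of_mem_closedBall (c := 0) (R := ρ)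
      (a := (r : ℂ) * ξ) (by rw [mem_closedBall_zero_iff, hw, abs_of_pos hρ0]; exact hρ.le)
    rw [circleAverage_def, smul_eq_mul, inv_mul_eq_iff_eq_mul₀ hpi.ne'] at h2
    simp_rw [hA]
    rw [intervalIntegral.integral_const_mul, h2]
    ring
  have hp1 : ∀ α, 0 < ρ ^ 2 + r ^ 2 - 2 * ρ * r * sup α ξ := fun α =>
    argpos ρ r hr hρ _ (hs1 α)
  have hsc : ∀ z, Continuous fun α => sup α z := fun z =>
    sup_cont.comp (by fun_prop : Continuous fun α : ℝ => (α, z))
  have hp2 : ∀ α, 0 < ρ ^ 2 + r ^ 2 - 2 * ρ * r * sup α ζ := fun α =>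
    argpos ρ r hr hρ _ ((abs_le.1 (sup_abs α ζ)).2.trans hζ)
  have hc1 : Continuous fun α => Real.log (ρ ^ 2 + r ^ 2 - 2 * ρ * r * sup α ξ) :=
    Continuous.log (by have := hsc ξ; fun_prop) (fun α => (hp1 α).ne')
  have hc2 : Continuous fun α => Real.log (ρ ^ 2 + r ^ 2 - 2 * ρ * r * sup α ζ) :=
    Continuous.log (by have := hsc ζ; fun_prop) (fun α => (hp2 α).ne')
  have hq : 0 < ρ ^ 2 + r ^ 2 := by positivity
  have hpt : ∀ α, t * Real.log (ρ ^ 2 + r ^ 2 - 2 * ρ * r * sup α ξ) +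
      (1 - t) * (2 * Real.log ρ) ≤ Real.log (ρ ^ 2 + r ^ 2 - 2 * ρ * r * sup α ζ) := by
    intro α
    have hcc := strictConcaveOn_log_Ioi.concaveOn.2 (mem_Ioi.2 (hp1 α)) (mem_Ioi.2 hq) ht0
      (by linarith : 0 ≤ 1 - t) (by ring)
    simp only [smul_eq_mul] at hcc
    have e : t * (ρ ^ 2 + r ^ 2 - 2 * ρ * r * sup α ξ) + (1 - t) * (ρ ^ 2 + r ^ 2) =
        ρ ^ 2 + r ^ 2 - 2 * ρ * r * sup α ζ := by
      rw [hs]; ring
    rw [e] at hcc
    have h3 : 2 * Real.log ρ ≤ Real.log (ρ ^ 2 + r ^ 2) := by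
      have : 2 * Real.log ρ = Real.log (ρ ^ 2) := by rw [Real.log_pow]; norm_num
      rw [this]
      exact Real.log_le_log (by positivity) (by nlinarith)
    nlinarith [mul_le_mul_of_nonneg_left h3 (by linarith : 0 ≤ 1 - t)]
  have j1 : IntervalIntegrable (fun α => t * Real.log (ρ ^ 2 + r ^ 2 - 2 * ρ * r * sup α ξ))
      volume 0 (2 * π) := (continuous_const.mul hc1).intervalIntegrable _ _
  have j2 : IntervalIntegrable (fun _ : ℝ => (1 - t) * (2 * Real.log ρ))
      volume 0 (2 * π) := continuous_const.intervalIntegrable _ _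
  have hI := intervalIntegral.integral_mono_on hpi.le (j1.add j2)
    (hc2.intervalIntegrable _ _) (fun α _ => hpt α)
  rw [intervalIntegral.integral_add j1 j2, intervalIntegral.integral_const_mul, hint,
    intervalIntegral.integral_const, smul_eq_mul, sub_zero] at hI
  linarith

set_option maxHeartbeats 4000000 in
theorem core (f : ℂ → ℂ) (hf : HarmonicOnNhd f (ball 0 1)) (hb : ∀ z ∈ ball (0 : ℂ) 1, ‖f z‖ ≤ 1)
    (r ρ : ℝ) (hr : 0 < r) (hρ : r < ρ) (hρ1 : ρ < 1) (E : ℂ) (κ : ℝ)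
    (hE : ∀ w, ‖w‖ = r → ∀ α, κ * (sup α E) ^ 2 ≤ ((ρ ^ 2 - r ^ 2) * (ρ * r) / 32) *
      circleAverage (fun z => (sup α (f z) - g0 ρ r w z) ^ 2) 0 ρ) :
    0 ≤ r / ρ - κ * ‖E‖ ^ 2 / 2 ∧
    (volume (f '' closedBall 0 r)).toReal ≤ π * (r / ρ - κ * ‖E‖ ^ 2 / 2) ^ 2 := by
  have hρ0 : 0 < ρ := hr.trans hρ
  have hpi : (0 : ℝ) < 2 * π := by positivity
  have hsub : closedBall (0 : ℂ) ρ ⊆ ball 0 1 := closedBall_subset_ball hρ1
  set F : ℝ → ℂ := fun s => f (circleMap 0 ρ s) with hF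
  have hmem : ∀ s : ℝ, circleMap 0 ρ s ∈ ball (0 : ℂ) 1 := fun s =>
    hsub (circleMap_mem_closedBall 0 hρ0.le s)
  have hFc : Continuous F :=
    hf.continuousOn.comp_continuous (continuous_circleMap 0 ρ) hmem
  have hFb : ∀ s, ‖F s‖ ≤ 1 := fun s => hb _ (hmem s)
  set c : ℝ := (ρ ^ 2 - r ^ 2) / (2 * ρ * r) with hc
  have hc0 : 0 < c := div_pos (by nlinarith) (by positivity)
  set G : ℝ → ℝ → ℝ := fun α s => Real.log (ρ ^ 2 + r ^ 2 - 2 * ρ * r * sup α (F s)) with hG
  have hpos : ∀ α s, 0 < ρ ^ 2 + r ^ 2 - 2 * ρ * r * sup α (F s) := fun α s =>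
    argpos ρ r hr hρ _ ((abs_le.1 (sup_abs α (F s))).2.trans (hFb s))
  have hGc : Continuous (Function.uncurry G) := by
    have h1 : Continuous fun p : ℝ × ℝ => sup p.1 (F p.2) :=
      sup_cont.comp (by fun_prop : Continuous fun p : ℝ × ℝ => (p.1, F p.2))
    exact Continuous.log (by fun_prop) (fun p => (hpos p.1 p.2).ne')
  have hca : ∀ α, circleAverage (fun z => Real.log (ρ ^ 2 + r ^ 2 - 2 * ρ * r * sup α (f z))) 0 ρ =
      (2 * π)⁻¹ * ∫ s in (0 : ℝ)..2 * π, G α s := by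
    intro α
    rw [circleAverage_def, smul_eq_mul]
  set B : ℝ → ℝ := fun α => r / ρ + c * (2 * Real.log ρ - (2 * π)⁻¹ * ∫ s in (0 : ℝ)..2 * π, G α s)
    - κ * (sup α E) ^ 2 with hB
  have hIc : Continuous fun α => ∫ s in (0 : ℝ)..2 * π, G α s :=
    intervalIntegral.continuous_parametric_intervalIntegral_of_continuous' hGc 0 (2 * π)
  have hsE : Continuous fun α => sup α E :=
    sup_cont.comp (by fun_prop : Continuous fun α : ℝ => (α, E))
  have hBc : Continuous B := by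
    rw [hB]
    fun_prop
  have hBp : Function.Periodic B (2 * π) := by
    intro α
    have h1 : ∀ s, G (α + 2 * π) s = G α s := by
      intro s
      have := sup_per (F s) α
      simp only at this
      simp only [hG, this]
    have h2 := sup_per E α
    simp only at h2
    simp only [hB, h1, h2]
  have hbd : ∀ x ∈ f '' closedBall 0 r, ∀ α, sup α x ≤ B α := by
    rintro _ ⟨w', hw', rfl⟩ α
    have hu := sup_harm α f (closedBall 0 ρ) (hf.mono hsub)
    refine maxp r hr (fun z => sup α (f z)) (hu.mono (closedBall_subset_closedBall hρ.le)) (B α)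
      ?_ w' (by simpa using hw')
    intro w hw
    have h1 := yavg ρ r hr hρ hρ1.le w hw (fun z => sup α (f z)) hu (by
      intro z hz
      refine (sup_abs α (f z)).trans (hb z ?_)
      rw [mem_ball_zero_iff, hz]
      exact hρ1)
    rw [hca] at h1
    have h2 := hE w hw α
    simp only [hB]
    linarith
  have hu := ury (f '' closedBall 0 r)
    ((isCompact_closedBall 0 r).image_of_continuousOn
      (hf.continuousOn.mono (closedBall_subset_ball (hρ.trans hρ1))))
    ⟨f 0, 0, by simpa using hr.le, rfl⟩ B hBc hBp hbd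
  have hBI : (2 * π)⁻¹ * ∫ α in (0 : ℝ)..2 * π, B α ≤ r / ρ - κ * ‖E‖ ^ 2 / 2 := by
    have hswap : ∫ α in (0 : ℝ)..2 * π, ∫ s in (0 : ℝ)..2 * π, G α s =
        ∫ s in (0 : ℝ)..2 * π, ∫ α in (0 : ℝ)..2 * π, G α s := by
      refine intervalIntegral_intervalIntegral_swap ?_
      refine (hGc.continuousOn.integrableOn_compact
        ((isCompact_uIcc (a := (0 : ℝ)) (b := 2 * π)).prod
          (isCompact_uIcc (a := (0 : ℝ)) (b := 2 * π)))).mono_set ?_
      exact prod_mono uIoc_subset_uIcc uIoc_subset_uIcc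
    have hlow : 2 * π * (2 * π * (2 * Real.log ρ)) ≤
        ∫ α in (0 : ℝ)..2 * π, ∫ s in (0 : ℝ)..2 * π, G α s := by
      rw [hswap]
      have hI2 : Continuous fun s => ∫ α in (0 : ℝ)..2 * π, G α s := by
        refine intervalIntegral.continuous_parametric_intervalIntegral_of_continuous'
          (f := fun s α => G α s) ?_ 0 (2 * π)
        exact hGc.comp continuous_swap
      have j1 : IntervalIntegrable (fun _ : ℝ => 2 * π * (2 * Real.log ρ)) volume 0 (2 * π) :=
        continuous_const.intervalIntegrable _ _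
      have := intervalIntegral.integral_mono_on hpi.le j1
        (hI2.intervalIntegrable _ _) (fun s _ => logavg ρ r hr hρ (F s) (hFb s))
      rwa [intervalIntegral.integral_const, smul_eq_mul, sub_zero] at this
    have hE2 : ∫ α in (0 : ℝ)..2 * π, (sup α E) ^ 2 = π * ‖E‖ ^ 2 := by
      have e : ∀ α : ℝ, (sup α E) ^ 2 = E.re ^ 2 * Real.cos α ^ 2 +
          (2 * E.re * E.im) * (Real.sin α * Real.cos α) + E.im ^ 2 * Real.sin α ^ 2 := by
        intro α
        rw [sup_eq]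
        ring
      simp_rw [e]
      rw [intervalIntegral.integral_add (Continuous.intervalIntegrable (by fun_prop) _ _)
        (Continuous.intervalIntegrable (by fun_prop) _ _),
        intervalIntegral.integral_add (Continuous.intervalIntegrable (by fun_prop) _ _)
        (Continuous.intervalIntegrable (by fun_prop) _ _),
        intervalIntegral.integral_const_mul, intervalIntegral.integral_const_mul,
        intervalIntegral.integral_const_mul, integral_cos_sq, integral_sin_sq,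
        integral_sin_mul_cos₁, ← Complex.normSq_eq_norm_sq, Complex.normSq_apply]
      simp
      ring
    have hBint : ∫ α in (0 : ℝ)..2 * π, B α = 2 * π * (r / ρ) + c * (2 * π * (2 * Real.log ρ) -
        (2 * π)⁻¹ * ∫ α in (0 : ℝ)..2 * π, ∫ s in (0 : ℝ)..2 * π, G α s) - κ * (π * ‖E‖ ^ 2) := by
      have e : ∀ α, B α = (r / ρ + c * (2 * Real.log ρ)) -
          (c * (2 * π)⁻¹) * (∫ s in (0 : ℝ)..2 * π, G α s) - κ * (sup α E) ^ 2 := by
        intro α
        simp only [hB]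
        ring
      simp_rw [e]
      rw [intervalIntegral.integral_sub (Continuous.intervalIntegrable (by fun_prop) _ _)
        (Continuous.intervalIntegrable (by fun_prop) _ _),
        intervalIntegral.integral_sub (Continuous.intervalIntegrable (by fun_prop) _ _)
        (Continuous.intervalIntegrable (by fun_prop) _ _),
        intervalIntegral.integral_const_mul, intervalIntegral.integral_const_mul, hE2,
        intervalIntegral.integral_const, smul_eq_mul]
      ring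
    rw [hBint, inv_mul_le_iff₀ hpi]
    have h5 : 2 * π * (2 * Real.log ρ) ≤
        (2 * π)⁻¹ * ∫ α in (0 : ℝ)..2 * π, ∫ s in (0 : ℝ)..2 * π, G α s := by
      rw [le_inv_mul_iff₀ hpi]
      linarith
    nlinarith [mul_le_mul_of_nonneg_left h5 hc0.le]
  refine ⟨hu.1.trans hBI, hu.2.trans ?_⟩
  refine mul_le_mul_of_nonneg_left ?_ pi_pos.le
  exact pow_le_pow_left₀ hu.1 hBI 2

end Pool.Agent.R252.AC
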