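import Pool.Agent.R252.AC.Cor

/-!
# Area contraction for harmonic self-maps and its equality case
-/

set_option autoImplicit false
set_option maxHeartbeats 1000000

namespace Pool.Agent.R252.AC

open MeasureTheory Set Metric Complex Real InnerProductSpace Filter Topology
open scoped Real

theorem vol_ball (r : ℝ) (hr : 0 < r) : (volume (ball (0 : ℂ) r)).toReal = π * r ^ 2 := by
  rw [Complex.volume_ball, ENNReal.toReal_mul, ENNReal.toReal_pow, ENNReal.toReal_ofReal hr.le]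
  simp [mul_comm]

theorem img_le (f : ℂ → ℂ) (r : ℝ) :
    volume (f '' ball 0 r) ≤ volume (f '' closedBall 0 r) :=
  measure_mono (image_mono ball_subset_closedBall)

theorem vol_fin (f : ℂ → ℂ) (hf : HarmonicOnNhd f (ball 0 1)) (r : ℝ) (hr1 : r < 1) :
    volume (f '' closedBall 0 r) ≠ ⊤ :=
  ((isCompact_closedBall 0 r).image_of_continuousOn
      (hf.continuousOn.mono (closedBall_subset_ball hr1))).measure_ne_top

/-- contraction -/
theorem contr (f : ℂ → ℂ) (hf : HarmonicOnNhd f (ball 0 1)) (hb : ∀ z ∈ ball (0 : ℂ) 1, ‖f z‖ ≤ 1)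
    (r : ℝ) (hr : 0 < r) (hr1 : r < 1) : volume (f '' ball 0 r) ≤ volume (ball (0 : ℂ) r) := by
  refine (img_le f r).trans ?_
  rw [← ENNReal.toReal_le_toReal (vol_fin f hf r hr1) measure_ball_lt_top.ne, vol_ball r hr]
  have key : ∀ ρ ∈ Ioo r 1, (volume (f '' closedBall 0 r)).toReal ≤ π * (r / ρ) ^ 2 := by
    intro ρ hρ
    have := (core f hf hb r ρ hr hρ.1 hρ.2 0 0 (by
      intro w _ α
      rw [zero_mul]
      refine mul_nonneg ?_ ?_
      · have : 0 < ρ := hr.trans hρ.1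
        have : 0 < ρ ^ 2 - r ^ 2 := by nlinarith [hρ.1]
        positivity
      · exact circleAverage_nonneg_of_nonneg (fun z _ => sq_nonneg _))).2
    simpa using this
  have ht : Tendsto (fun ρ : ℝ => π * (r / ρ) ^ 2) (𝓝[<] 1) (𝓝 (π * (r / 1) ^ 2)) := by
    refine Tendsto.mono_left ?_ nhdsWithin_le_nhds
    have : ContinuousAt (fun ρ : ℝ => π * (r / ρ) ^ 2) 1 := by
      fun_prop (disch := norm_num)
    exact this
  rw [div_one] at ht
  refine ge_of_tendsto ht ?_
  filter_upwards [Ioo_mem_nhdsLT hr1] with ρ hρ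
  exact key ρ hρ

/-- rigidity: `f` is real-linear -/
theorem lin (f : ℂ → ℂ) (hf : HarmonicOnNhd f (ball 0 1)) (hb : ∀ z ∈ ball (0 : ℂ) 1, ‖f z‖ ≤ 1)
    (r : ℝ) (hr : 0 < r) (hr1 : r < 1) (hv : volume (f '' ball 0 r) = volume (ball (0 : ℂ) r))
    (w1 : ℂ) (hw1 : ‖w1‖ < 1) :
    f w1 = ((2 * w1.re : ℝ) : ℂ) * f (1 / 2) + ((2 * w1.im : ℝ) : ℂ) * f (I / 2) := by
  set x : ℝ := 2 * w1.re with hx
  set y : ℝ := 2 * w1.im with hy
  set E : ℂ := f w1 - (x : ℂ) * f (1 / 2) - (y : ℂ) * f (I / 2) with hE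
  suffices h : E = 0 by
    rw [hE, sub_sub, sub_eq_zero] at h
    exact h
  set ρ1 : ℝ := max r (max (1 / 2) ‖w1‖) with hρ1
  have hρ1r : r ≤ ρ1 := le_max_left _ _
  have hρ1h : 1 / 2 ≤ ρ1 := (le_max_left _ _).trans (le_max_right _ _)
  have hρ1w : ‖w1‖ ≤ ρ1 := (le_max_right _ _).trans (le_max_right _ _)
  have hρ11 : ρ1 < 1 := by
    rw [hρ1]
    exact max_lt hr1 (max_lt (by norm_num) hw1)
  set M : ℝ := 4 / (1 - ρ1) with hM
  have hM0 : 0 < M := div_pos (by norm_num) (by linarith)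
  set C : ℝ := (1 + |x| + |y|) * M with hC
  have hC0 : 0 < C := by positivity
  have hpk : ∀ ρ ∈ Ioo ((1 + ρ1) / 2) 1, ∀ w : ℂ, ‖w‖ ≤ ρ1 → ∀ z : ℂ, ‖z‖ = ρ →
      |poissonKernel 0 w z| ≤ M := by
    intro ρ hρ w hw z hz
    have hwρ : ‖w‖ < ρ := by
      have := hρ.1
      linarith
    rw [abs_of_nonneg (pk_nonneg ρ w z hwρ hz)]
    refine (pk_le ρ w z hwρ hz).trans ?_
    rw [hM, div_le_div_iff₀ (by linarith) (by linarith)]
    have h1 := hρ.1
    have h2 := hρ.2
    nlinarith [norm_nonneg w]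
  have hh : ‖(1 / 2 : ℂ)‖ = 1 / 2 := by norm_num
  have hi : ‖(I / 2 : ℂ)‖ = 1 / 2 := by simp
  have key : ∀ ρ ∈ Ioo ((1 + ρ1) / 2) 1,
      ‖E‖ ^ 2 * (ρ ^ 2 - r ^ 2) * ρ ^ 2 ≤ 64 * C ^ 2 * (1 - ρ) := by
    intro ρ hρ
    have hρr : r < ρ := by have := hρ.1; linarith
    have hρ0 : 0 < ρ := hr.trans hρr
    have hρw : ‖w1‖ < ρ := by have := hρ.1; linarith
    have hρh : 1 / 2 < ρ := by have := hρ.1; linarith
    have hd : 0 < ρ ^ 2 - r ^ 2 := by nlinarith
    set κ0 : ℝ := (ρ ^ 2 - r ^ 2) * (ρ * r) / 32 with hκ0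
    have hκ00 : 0 < κ0 := by positivity
    have hsub : closedBall (0 : ℂ) ρ ⊆ ball 0 1 := closedBall_subset_ball hρ.2
    have hcore := core f hf hb r ρ hr hρr hρ.2 E (κ0 / C ^ 2) (by
      intro w hw α
      rw [div_mul_eq_mul_div, mul_div_assoc]
      refine mul_le_mul_of_nonneg_left ?_ hκ00.le
      rw [div_le_iff₀' (by positivity)]
      have hvh : HarmonicOnNhd (fun z => sup α (f z) - g0 ρ r w z) (closedBall 0 ρ) :=
        (sup_harm α f _ (hf.mono hsub)).sub (g0_harm ρ r w _)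
      have hvc : ContinuousOn (fun z => sup α (f z) - g0 ρ r w z) (sphere 0 |ρ|) := by
        rw [abs_of_pos hρ0]
        exact hvh.continuousOn.mono sphere_subset_closedBall
      have hp1 := pk_cont ρ hρ0 w1 hρw
      have hp2 := pk_cont ρ hρ0 (1 / 2) (by rw [hh]; exact hρh)
      have hp3 := pk_cont ρ hρ0 (I / 2) (by rw [hi]; exact hρh)
      have hcs := cs ρ C hρ0 hC0 (fun z => poissonKernel 0 w1 z - x * poissonKernel 0 (1 / 2) z -
        y * poissonKernel 0 (I / 2) z) (fun z => sup α (f z) - g0 ρ r w z)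
        ((hp1.sub (continuousOn_const.mul hp2)).sub (continuousOn_const.mul hp3)) hvc (by
          intro z hz
          have b1 := hpk ρ hρ w1 hρ1w z hz
          have b2 := hpk ρ hρ (1 / 2) (by rw [hh]; exact hρ1h) z hz
          have b3 := hpk ρ hρ (I / 2) (by rw [hi]; exact hρ1h) z hz
          calc |poissonKernel 0 w1 z - x * poissonKernel 0 (1 / 2) z -
                y * poissonKernel 0 (I / 2) z|
              ≤ |poissonKernel 0 w1 z| + |x * poissonKernel 0 (1 / 2) z| +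
                |y * poissonKernel 0 (I / 2) z| := by
                refine (abs_sub _ _).trans ?_
                gcongr
                exact abs_sub _ _
            _ ≤ M + |x| * M + |y| * M := by
                have u2 : |x * poissonKernel 0 (1 / 2) z| ≤ |x| * M := by
                  rw [abs_mul]
                  exact mul_le_mul_of_nonneg_left b2 (abs_nonneg _)
                have u3 : |y * poissonKernel 0 (I / 2) z| ≤ |y| * M := by
                  rw [abs_mul]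
                  exact mul_le_mul_of_nonneg_left b3 (abs_nonneg _)
                linarith
            _ = C := by rw [hC]; ring)
      have hT : circleAverage (fun z => (poissonKernel 0 w1 z - x * poissonKernel 0 (1 / 2) z -
          y * poissonKernel 0 (I / 2) z) * (sup α (f z) - g0 ρ r w z)) 0 ρ = sup α E := by
        have q1 : CircleIntegrable (fun z => poissonKernel 0 w1 z * (sup α (f z) - g0 ρ r w z)) 0 ρ :=
          (hp1.mul hvc).circleIntegrable'
        have q2 : CircleIntegrable (fun z => x * (poissonKernel 0 (1 / 2) z *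
            (sup α (f z) - g0 ρ r w z))) 0 ρ :=
          (continuousOn_const.mul (hp2.mul hvc)).circleIntegrable'
        have q3 : CircleIntegrable (fun z => y * (poissonKernel 0 (I / 2) z *
            (sup α (f z) - g0 ρ r w z))) 0 ρ :=
          (continuousOn_const.mul (hp3.mul hvc)).circleIntegrable'
        have e : (fun z => (poissonKernel 0 w1 z - x * poissonKernel 0 (1 / 2) z -
            y * poissonKernel 0 (I / 2) z) * (sup α (f z) - g0 ρ r w z)) =
            (fun z => poissonKernel 0 w1 z * (sup α (f z) - g0 ρ r w z)) -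
            (fun z => x * (poissonKernel 0 (1 / 2) z * (sup α (f z) - g0 ρ r w z))) -
            (fun z => y * (poissonKernel 0 (I / 2) z * (sup α (f z) - g0 ρ r w z))) := by
          ext z
          simp only [Pi.sub_apply]
          ring
        rw [e, circleAverage_sub (q1.sub q2) q3, circleAverage_sub q1 q2]
        have s2 := circleAverage_fun_smul (c := 0) (R := ρ) (a := x)
          (f := fun z : ℂ => poissonKernel 0 (1 / 2) z * (sup α (f z) - g0 ρ r w z))
        have s3 := circleAverage_fun_smul (c := 0) (R := ρ) (a := y)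
          (f := fun z : ℂ => poissonKernel 0 (I / 2) z * (sup α (f z) - g0 ρ r w z))
        simp only [smul_eq_mul] at s2 s3
        rw [s2, s3, poiss ρ _ hvh w1 hρw, poiss ρ _ hvh (1 / 2) (by rw [hh]; exact hρh),
          poiss ρ _ hvh (I / 2) (by rw [hi]; exact hρh)]
        have t1 : sup α E = sup α (f w1) - x * sup α (f (1 / 2)) - y * sup α (f (I / 2)) := by
          rw [hE]
          simp only [sup_eq, Complex.sub_re, Complex.sub_im, Complex.re_ofReal_mul,
            Complex.im_ofReal_mul]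
          ring
        have t2 : g0 ρ r w w1 - x * g0 ρ r w (1 / 2) - y * g0 ρ r w (I / 2) = 0 := by
          have a1 : (1 / 2 : ℂ).re = 1 / 2 := by norm_num
          have a2 : (1 / 2 : ℂ).im = 0 := by norm_num
          have a3 : (I / 2 : ℂ).re = 0 := by norm_num
          have a4 : (I / 2 : ℂ).im = 1 / 2 := by norm_num
          simp only [g0, a1, a2, a3, a4, hx, hy]
          ring
        rw [t1]
        linarith
      rw [hT] at hcs
      exact hcs)
    have h1 : π * r ^ 2 ≤ π * (r / ρ - κ0 / C ^ 2 * ‖E‖ ^ 2 / 2) ^ 2 := by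
      refine le_trans ?_ hcore.2
      rw [← vol_ball r hr, ← hv]
      exact ENNReal.toReal_mono (vol_fin f hf r hr1) (img_le f r)
    have h2 : r ^ 2 ≤ (r / ρ - κ0 / C ^ 2 * ‖E‖ ^ 2 / 2) ^ 2 := le_of_mul_le_mul_left h1 pi_pos
    have h3 : r ≤ r / ρ - κ0 / C ^ 2 * ‖E‖ ^ 2 / 2 := by
      exact (pow_le_pow_iff_left₀ hr.le hcore.1 two_ne_zero).1 h2
    have h4 : κ0 / C ^ 2 * ‖E‖ ^ 2 / 2 = (ρ ^ 2 - r ^ 2) * (ρ * r) * ‖E‖ ^ 2 / (64 * C ^ 2) := by
      rw [hκ0]
      field_simp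
      ring
    rw [h4] at h3
    have h5 : (ρ ^ 2 - r ^ 2) * (ρ * r) * ‖E‖ ^ 2 / (64 * C ^ 2) ≤ r / ρ - r := by linarith
    have h6 : r / ρ - r = r * (1 - ρ) / ρ := by field_simp
    rw [h6, div_le_div_iff₀ (by positivity) hρ0] at h5
    have h7 : r * (‖E‖ ^ 2 * (ρ ^ 2 - r ^ 2) * ρ ^ 2) ≤ r * (64 * C ^ 2 * (1 - ρ)) := by
      calc r * (‖E‖ ^ 2 * (ρ ^ 2 - r ^ 2) * ρ ^ 2)
          = (ρ ^ 2 - r ^ 2) * (ρ * r) * ‖E‖ ^ 2 * ρ := by ring
        _ ≤ r * (1 - ρ) * (64 * C ^ 2) := h5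
        _ = r * (64 * C ^ 2 * (1 - ρ)) := by ring
    exact le_of_mul_le_mul_left h7 hr
  have hρ2 : (1 + ρ1) / 2 < 1 := by linarith
  have t1 : Tendsto (fun ρ : ℝ => ‖E‖ ^ 2 * (ρ ^ 2 - r ^ 2) * ρ ^ 2) (𝓝[<] 1)
      (𝓝 (‖E‖ ^ 2 * (1 ^ 2 - r ^ 2) * 1 ^ 2)) := by
    refine Tendsto.mono_left ?_ nhdsWithin_le_nhds
    exact (by fun_prop : Continuous fun ρ : ℝ => ‖E‖ ^ 2 * (ρ ^ 2 - r ^ 2) * ρ ^ 2).tendsto 1
  have t2 : Tendsto (fun ρ : ℝ => 64 * C ^ 2 * (1 - ρ)) (𝓝[<] 1) (𝓝 (64 * C ^ 2 * (1 - 1))) := by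
    refine Tendsto.mono_left ?_ nhdsWithin_le_nhds
    exact (by fun_prop : Continuous fun ρ : ℝ => 64 * C ^ 2 * (1 - ρ)).tendsto 1
  have h8 := le_of_tendsto_of_tendsto t1 t2 (by
    filter_upwards [Ioo_mem_nhdsLT hρ2] with ρ hρ
    exact key ρ hρ)
  have h9 : ‖E‖ ^ 2 * (1 - r ^ 2) ≤ 0 := by nlinarith
  have h10 : 0 < 1 - r ^ 2 := by nlinarith
  have h11 : ‖E‖ ^ 2 ≤ 0 := by
    by_contra h
    push Not at h
    nlinarith
  have h12 : ‖E‖ = 0 := by nlinarith [norm_nonneg E]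
  exact norm_eq_zero.1 h12

/-- the real-linear map `z ↦ z.re p + z.im q` -/
noncomputable def Lm (p q : ℂ) : ℂ →ₗ[ℝ] ℂ :=
  Matrix.toLin Complex.basisOneI Complex.basisOneI !![p.re, q.re; p.im, q.im]

theorem Lm_apply (p q z : ℂ) : Lm p q z = (z.re : ℂ) * p + (z.im : ℂ) * q := by
  rw [Lm, Matrix.toLin_apply]
  simp only [Complex.coe_basisOneI_repr, Fin.sum_univ_two, Complex.coe_basisOneI]
  apply Complex.ext <;> simp [Matrix.mulVec, dotProduct, Fin.sum_univ_two] <;> ring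

theorem Lm_det (p q : ℂ) : LinearMap.det (Lm p q) = p.re * q.im - q.re * p.im := by
  rw [Lm, LinearMap.det_toLin, Matrix.det_fin_two_of]

theorem classify (f : ℂ → ℂ) (hf : HarmonicOnNhd f (ball 0 1))
    (hb : ∀ z ∈ ball (0 : ℂ) 1, ‖f z‖ ≤ 1)
    (r : ℝ) (hr : 0 < r) (hr1 : r < 1) (hv : volume (f '' ball 0 r) = volume (ball (0 : ℂ) r)) :
    ∃ c : ℂ, ‖c‖ = 1 ∧ ((∀ z ∈ ball (0 : ℂ) 1, f z = c * z) ∨
      (∀ z ∈ ball (0 : ℂ) 1, f z = c * (starRingEnd ℂ) z)) := by
  set p : ℂ := 2 * f (1 / 2) with hp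
  set q : ℂ := 2 * f (I / 2) with hq
  have hlin : ∀ z ∈ ball (0 : ℂ) 1, f z = (z.re : ℂ) * p + (z.im : ℂ) * q := by
    intro z hz
    rw [lin f hf hb r hr hr1 hv z (by simpa using hz), hp, hq]
    push_cast
    ring
  have hbound : ∀ (v : ℂ) (e : ℂ), ‖e‖ = 1 → (∀ t : ℝ, t ∈ Ioo (0 : ℝ) 1 → f (t * e) = t * v) →
      ‖v‖ ≤ 1 := by
    intro v e he h
    have hk : ∀ t ∈ Ioo (0 : ℝ) 1, t * ‖v‖ ≤ 1 := by
      intro t ht
      have h1 := hb (t * e) (by
        rw [mem_ball_zero_iff, norm_mul, he, mul_one, Complex.norm_real, Real.norm_eq_abs,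
          abs_of_pos ht.1]
        exact ht.2)
      rwa [h t ht, norm_mul, Complex.norm_real, Real.norm_eq_abs, abs_of_pos ht.1] at h1
    have ht : Tendsto (fun t : ℝ => t * ‖v‖) (𝓝[<] 1) (𝓝 (1 * ‖v‖)) := by
      refine Tendsto.mono_left ?_ nhdsWithin_le_nhds
      exact (by fun_prop : Continuous fun t : ℝ => t * ‖v‖).tendsto 1
    rw [one_mul] at ht
    refine le_of_tendsto ht ?_
    filter_upwards [Ioo_mem_nhdsLT (zero_lt_one' ℝ)] with t ht
    exact hk t ht
  have hp1 : ‖p‖ ≤ 1 := hbound p 1 (by simp) (by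
    intro t ht
    rw [hlin (t * 1) (by
      rw [mul_one, mem_ball_zero_iff, Complex.norm_real, Real.norm_eq_abs, abs_of_pos ht.1]
      exact ht.2)]
    simp)
  have hq1 : ‖q‖ ≤ 1 := hbound q I (by simp) (by
    intro t ht
    rw [hlin (t * I) (by
      rw [mem_ball_zero_iff, norm_mul, Complex.norm_I, mul_one, Complex.norm_real,
        Real.norm_eq_abs, abs_of_pos ht.1]
      exact ht.2)]
    simp)
  have himg : f '' ball 0 r = Lm p q '' ball 0 r := by
    refine image_congr ?_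
    intro z hz
    rw [hlin z (ball_subset_ball hr1.le hz), Lm_apply]
  have hdet : |p.re * q.im - q.re * p.im| = 1 := by
    rw [himg, Measure.addHaar_image_linearMap, Lm_det] at hv
    have h1 := congrArg ENNReal.toReal hv
    rw [ENNReal.toReal_mul, ENNReal.toReal_ofReal (abs_nonneg _), vol_ball r hr] at h1
    have : 0 < π * r ^ 2 := by positivity
    have h2 : (|p.re * q.im - q.re * p.im| - 1) * (π * r ^ 2) = 0 := by linarith
    rcases mul_eq_zero.1 h2 with h | h
    · linarith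
    · exact absurd h this.ne'
  have hnp : p.re ^ 2 + p.im ^ 2 ≤ 1 := by
    have : ‖p‖ ^ 2 ≤ 1 := by nlinarith [norm_nonneg p]
    rw [← Complex.normSq_eq_norm_sq, Complex.normSq_apply] at this
    linarith
  have hnq : q.re ^ 2 + q.im ^ 2 ≤ 1 := by
    have : ‖q‖ ^ 2 ≤ 1 := by nlinarith [norm_nonneg q]
    rw [← Complex.normSq_eq_norm_sq, Complex.normSq_apply] at this
    linarith
  have hp0 : 0 ≤ p.re ^ 2 + p.im ^ 2 := by positivity
  have hq0 : 0 ≤ q.re ^ 2 + q.im ^ 2 := by positivity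
  rcases (abs_eq zero_le_one).1 hdet with h | h
  · -- rotation
    have e1 : (q.re + p.im) ^ 2 + (q.im - p.re) ^ 2 = (p.re ^ 2 + p.im ^ 2) +
        (q.re ^ 2 + q.im ^ 2) - 2 := by linear_combination (-2) * h
    have e2 : (q.re + p.im) ^ 2 + (q.im - p.re) ^ 2 = 0 := by
      apply le_antisymm
      · rw [e1]; linarith
      · positivity
    have e3 : q.re + p.im = 0 := by nlinarith [sq_nonneg (q.re + p.im), sq_nonneg (q.im - p.re)]
    have e4 : q.im - p.re = 0 := by nlinarith [sq_nonneg (q.re + p.im), sq_nonneg (q.im - p.re)]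
    have hqp : q = I * p := by
      apply Complex.ext <;> simp <;> linarith
    refine ⟨p, ?_, Or.inl ?_⟩
    · have : ‖p‖ ^ 2 = 1 := by
        rw [← Complex.normSq_eq_norm_sq, Complex.normSq_apply]
        rw [e2] at e1
        linarith
      nlinarith [norm_nonneg p]
    · intro z hz
      rw [hlin z hz, hqp]
      nth_rewrite 3 [← Complex.re_add_im z]
      ring
  · -- reflection
    have e1 : (q.re - p.im) ^ 2 + (q.im + p.re) ^ 2 = (p.re ^ 2 + p.im ^ 2) +
        (q.re ^ 2 + q.im ^ 2) - 2 := by linear_combination 2 * h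
    have e2 : (q.re - p.im) ^ 2 + (q.im + p.re) ^ 2 = 0 := by
      apply le_antisymm
      · rw [e1]; linarith
      · positivity
    have e3 : q.re - p.im = 0 := by nlinarith [sq_nonneg (q.re - p.im), sq_nonneg (q.im + p.re)]
    have e4 : q.im + p.re = 0 := by nlinarith [sq_nonneg (q.re - p.im), sq_nonneg (q.im + p.re)]
    have hqp : q = -(I * p) := by
      apply Complex.ext <;> simp <;> linarith
    refine ⟨p, ?_, Or.inr ?_⟩
    · have : ‖p‖ ^ 2 = 1 := by
        rw [← Complex.normSq_eq_norm_sq, Complex.normSq_apply]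
        rw [e2] at e1
        linarith
      nlinarith [norm_nonneg p]
    · intro z hz
      rw [hlin z hz, hqp]
      have : (starRingEnd ℂ) z = (z.re : ℂ) - (z.im : ℂ) * I := by
        apply Complex.ext <;> simp
      rw [this]
      ring

end Pool.Agent.R252.AC
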