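import Mathlib
import Pool.Agent.H212R2.KLS.T1

/-!
# Area of a planar compact set and its mean width (averaging over rotations)
-/

set_option autoImplicit false

namespace Pool.Agent.R252.AC

open MeasureTheory Set Metric Complex
open scoped ENNReal Real

theorem bm_mid (A C D : Set ℂ) (hA : IsCompact A) (hC : IsCompact C) (hD : IsCompact D)
    (h : ∀ x ∈ A, ∀ y ∈ C, (1 - (1 / 2 : ℝ)) • x + (1 / 2 : ℝ) • y ∈ D) (v : ℝ≥0∞)
    (hvA : v ≤ volume A) (hvC : v ≤ volume C) : v ≤ volume D := by
  have ht0 : (0 : ℝ) < 1 / 2 := by norm_num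
  have ht1 : (1 / 2 : ℝ) < 1 := by norm_num
  have hPL := Pool.Agent.H212R2.KLS.PL (volume : Measure ℂ) (1 / 2) ht0 ht1
    (A.indicator 1) (C.indicator 1)
    (D.indicator 1) (measurable_one.indicator hA.measurableSet)
    (measurable_one.indicator hC.measurableSet) (measurable_one.indicator hD.measurableSet) ?_
  · rw [lintegral_indicator_one hA.measurableSet, lintegral_indicator_one hC.measurableSet,
      lintegral_indicator_one hD.measurableSet] at hPL
    refine le_trans ?_ hPL
    rcases eq_or_ne v 0 with rfl | hv0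
    · exact zero_le
    · have hvt : v ≠ ∞ := ne_top_of_le_ne_top hC.measure_ne_top hvC
      calc v = v ^ (1 - (1 / 2 : ℝ)) * v ^ (1 / 2 : ℝ) := by
            rw [← ENNReal.rpow_add _ _ hv0 hvt]
            norm_num
        _ ≤ (volume A) ^ (1 - (1 / 2 : ℝ)) * (volume C) ^ (1 / 2 : ℝ) := by
            gcongr
  · intro x y
    by_cases hx : x ∈ A
    · by_cases hy : y ∈ C
      · rw [indicator_of_mem hx, indicator_of_mem hy, indicator_of_mem (h x hx y hy)]
        simp
      · rw [indicator_of_notMem hy, ENNReal.zero_rpow_of_pos ht0, mul_zero]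
        exact zero_le
    · rw [indicator_of_notMem hx, ENNReal.zero_rpow_of_pos (by norm_num), zero_mul]
      exact zero_le

/-- rotation by the angle `θ` -/
noncomputable def rot (θ : ℝ) : ℂ ≃ₗᵢ[ℝ] ℂ := rotation (Circle.exp θ)

theorem rot_apply (θ : ℝ) (z : ℂ) : rot θ z = exp (θ * I) * z := by
  simp [rot, rotation_apply, Circle.coe_exp]

theorem vol_rot (θ : ℝ) (K : Set ℂ) : volume (rot θ '' K) = volume K := by
  have h : rot θ '' K = (rot θ).symm ⁻¹' K := by
    rw [LinearIsometryEquiv.image_eq_preimage_symm]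
  rw [h]
  exact ((rot θ).symm.measurePreserving).measure_preimage_emb
    (rot θ).symm.toHomeomorph.measurableEmbedding K

/-- the support-type functional -/
noncomputable def sup (α : ℝ) (z : ℂ) : ℝ := (exp (-(α * I)) * z).re

theorem sup_eq (t : ℝ) (x : ℂ) : sup t x = x.re * Real.cos t + x.im * Real.sin t := by
  have : exp (-((t : ℂ) * I)) = exp (((-t : ℝ) : ℂ) * I) := by push_cast; ring_nf
  rw [sup, this, Complex.mul_re, Complex.exp_ofReal_mul_I_re, Complex.exp_ofReal_mul_I_im,
    Real.cos_neg, Real.sin_neg]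
  ring

theorem sup_rot (α θ : ℝ) (z : ℂ) : sup α (rot θ z) = sup (α - θ) z := by
  rw [sup, sup, rot_apply, ← mul_assoc, ← Complex.exp_add]
  congr 3
  push_cast
  ring

theorem sup_add (α : ℝ) (z w : ℂ) : sup α (z + w) = sup α z + sup α w := by
  simp [sup, mul_add]

theorem sup_smul (α t : ℝ) (z : ℂ) : sup α (t • z) = t * sup α z := by
  simp only [sup, Complex.real_smul]
  rw [mul_left_comm, Complex.re_ofReal_mul]

theorem sup_arg (z : ℂ) : sup (arg z) z = ‖z‖ := by
  have h := Complex.norm_mul_exp_arg_mul_I z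
  rw [sup]
  nth_rewrite 2 [← h]
  rw [mul_left_comm, ← Complex.exp_add]
  simp

/-- one averaging step -/
def stp (K : Set ℂ) (θ : ℝ) : Set ℂ :=
  (fun p : ℂ × ℂ => (1 - (1 / 2 : ℝ)) • p.1 + (1 / 2 : ℝ) • p.2) '' (K ×ˢ (rot θ '' K))

theorem stp_compact (K : Set ℂ) (θ : ℝ) (hK : IsCompact K) : IsCompact (stp K θ) := by
  refine (hK.prod (hK.image (rot θ).continuous)).image ?_
  fun_prop

theorem stp_vol (K : Set ℂ) (θ : ℝ) (hK : IsCompact K) : volume K ≤ volume (stp K θ) := by
  refine bm_mid K (rot θ '' K) (stp K θ) hK (hK.image (rot θ).continuous) (stp_compact K θ hK)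
    ?_ (volume K) le_rfl (vol_rot θ K).ge
  intro x hx y hy
  exact ⟨(x, y), ⟨hx, hy⟩, rfl⟩

theorem iter (K : Set ℂ) (hK : IsCompact K) (B : ℝ → ℝ) (hB : Continuous B)
    (hper : Function.Periodic B (2 * π)) (h : ∀ x ∈ K, ∀ α, sup α x ≤ B α)
    (ε δ : ℝ) (hmod : ∀ x y, |x - y| ≤ δ → |B x - B y| ≤ ε) (n : ℕ) :
    ∃ (Kn : Set ℂ) (Bn : ℝ → ℝ), IsCompact Kn ∧ Continuous Bn ∧
      Function.Periodic Bn (2 * π / 2 ^ n) ∧ (∀ x ∈ Kn, ∀ α, sup α x ≤ Bn α) ∧
      volume K ≤ volume Kn ∧ (∫ x in (0 : ℝ)..2 * π, Bn x = ∫ x in (0 : ℝ)..2 * π, B x) ∧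
      (∀ x y, |x - y| ≤ δ → |Bn x - Bn y| ≤ ε) := by
  induction n with
  | zero =>
    exact ⟨K, B, hK, hB, by simpa using hper, h, le_rfl, rfl, hmod⟩
  | succ n ih =>
    obtain ⟨Kn, Bn, h1, h2, h3, h4, h5, h6, h7⟩ := ih
    set θ : ℝ := 2 * π / 2 ^ (n + 1) with hθ
    have hθ2 : 2 * π / 2 ^ n = θ + θ := by
      rw [hθ, pow_succ]; field_simp; ring
    refine ⟨stp Kn θ, fun α => (1 / 2) * (Bn α + Bn (α - θ)), stp_compact Kn θ h1, by fun_prop,
      ?_, ?_, h5.trans (stp_vol Kn θ h1), ?_, ?_⟩
    · intro x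
      have e1 : Bn (x + θ) = Bn (x - θ) := by
        have := h3 (x - θ)
        rw [hθ2] at this
        rw [← this]
        congr 1
        ring
      simp only [add_sub_cancel_right]
      rw [e1]
      ring
    · rintro _ ⟨⟨x, y⟩, ⟨hx, ⟨z, hz, hzy⟩⟩, rfl⟩ α
      simp only at hx hzy ⊢
      subst hzy
      rw [sup_add, sup_smul, sup_smul, sup_rot]
      have := h4 x hx α
      have := h4 z hz (α - θ)
      linarith
    · have hp : Function.Periodic Bn (2 * π) := by
        have := h3.nat_mul (2 ^ n)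
        have e : ((2 ^ n : ℕ) : ℝ) * (2 * π / 2 ^ n) = 2 * π := by
          push_cast
          field_simp
        rwa [e] at this
      have e2 : ∫ x in (0 : ℝ)..2 * π, Bn (x - θ) = ∫ x in (0 : ℝ)..2 * π, Bn x := by
        rw [intervalIntegral.integral_comp_sub_right (fun x => Bn x) θ]
        have := hp.intervalIntegral_add_eq (0 - θ) 0
        rw [zero_add] at this
        rw [← this]
        congr 1
        ring
      rw [intervalIntegral.integral_const_mul, intervalIntegral.integral_add
        (h2.intervalIntegrable _ _) ((by fun_prop : Continuous fun x => Bn (x - θ)).intervalIntegrable _ _),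
        e2, ← h6]
      ring
    · intro x y hxy
      have a1 := h7 x y hxy
      have a2 := h7 (x - θ) (y - θ) (by rwa [sub_sub_sub_cancel_right])
      rw [abs_le] at a1 a2 ⊢
      constructor <;> linarith [a1.1, a1.2, a2.1, a2.2]

/-- the area of a compact set is at most that of the disk with the same mean width -/
theorem ury (K : Set ℂ) (hK : IsCompact K) (hne : K.Nonempty) (B : ℝ → ℝ) (hB : Continuous B)
    (hper : Function.Periodic B (2 * π)) (h : ∀ x ∈ K, ∀ α, sup α x ≤ B α) :
    0 ≤ (2 * π)⁻¹ * ∫ x in (0 : ℝ)..2 * π, B x ∧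
    (volume K).toReal ≤ π * ((2 * π)⁻¹ * ∫ x in (0 : ℝ)..2 * π, B x) ^ 2 := by
  set J := (2 * π)⁻¹ * ∫ x in (0 : ℝ)..2 * π, B x with hJ
  have hpi : (0 : ℝ) < 2 * π := by positivity
  have key : ∀ ε > 0, 0 ≤ J + ε ∧ (volume K).toReal ≤ π * (J + ε) ^ 2 := by
    intro ε hε
    have huc : UniformContinuous B := by
      have hcomp : IsCompact (Icc (-1 : ℝ) (2 * π + 1)) := isCompact_Icc
      have h1 := hcomp.uniformContinuousOn_of_continuous hB.continuousOn
      rw [Metric.uniformContinuousOn_iff] at h1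
      rw [Metric.uniformContinuous_iff]
      intro e he
      obtain ⟨d, hd, h2⟩ := h1 e he
      refine ⟨min d 1, lt_min hd one_pos, ?_⟩
      intro a b hab
      obtain ⟨k, hk⟩ : ∃ k : ℤ, a + k * (2 * π) ∈ Ico 0 (2 * π) := by
        refine ⟨-⌊a / (2 * π)⌋, ?_⟩
        have f1 := Int.floor_le (a / (2 * π))
        have f2 := Int.lt_floor_add_one (a / (2 * π))
        rw [le_div_iff₀ hpi] at f1
        rw [div_lt_iff₀ hpi] at f2
        push_cast
        constructor <;> nlinarith
      have e1 : B a = B (a + k * (2 * π)) := (hper.int_mul k a).symm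
      have e2 : B b = B (b + k * (2 * π)) := (hper.int_mul k b).symm
      rw [e1, e2]
      rw [Real.dist_eq] at hab
      have hab1 := lt_of_lt_of_le hab (min_le_left _ _)
      have hab2 := lt_of_lt_of_le hab (min_le_right _ _)
      refine h2 _ ⟨by linarith [hk.1], by linarith [hk.2]⟩ _ ?_ ?_
      · rw [abs_lt] at hab2
        constructor
        · linarith [hk.1, hab2.2]
        · linarith [hk.2, hab2.1]
      · rw [Real.dist_eq]
        simpa using hab1
    rw [Metric.uniformContinuous_iff] at huc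
    obtain ⟨d, hd, hmod⟩ := huc ε hε
    obtain ⟨n, hn⟩ : ∃ n : ℕ, 2 * π / 2 ^ n < d := by
      obtain ⟨n, hn⟩ := pow_unbounded_of_one_lt (2 * π / d) (one_lt_two)
      refine ⟨n, ?_⟩
      rw [div_lt_iff₀ hd] at hn
      rw [div_lt_iff₀ (by positivity)]
      linarith
    obtain ⟨Kn, Bn, h1, h2, h3, h4, h5, h6, h7⟩ := iter K hK B hB hper h ε (2 * π / 2 ^ n)
      (fun x y hxy => (hmod (lt_of_le_of_lt (by rwa [Real.dist_eq]) hn)).le) n
    have hosc : ∀ α β, Bn α ≤ Bn β + ε := by
      intro α β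
      have hp : 0 < 2 * π / 2 ^ n := by positivity
      obtain ⟨y, hy, hy2⟩ := h3.exists_mem_Ico hp β α
      rw [hy2]
      have := h7 α y (by rw [abs_le]; constructor <;> linarith [hy.1, hy.2])
      rw [abs_le] at this
      linarith [this.2]
    have hbd : ∀ α, Bn α ≤ J + ε := by
      intro α
      have i1 : ∫ x in (0 : ℝ)..2 * π, (Bn α - ε) ≤ ∫ x in (0 : ℝ)..2 * π, Bn x := by
        refine intervalIntegral.integral_mono_on hpi.le (by simp) (h2.intervalIntegrable _ _) ?_
        intro x _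
        linarith [hosc α x]
      rw [intervalIntegral.integral_const, smul_eq_mul, h6, sub_zero] at i1
      have : Bn α - ε ≤ J := by
        rw [hJ, inv_mul_eq_div, le_div_iff₀ hpi]
        linarith
      linarith
    have hsub : Kn ⊆ closedBall 0 (J + ε) := by
      intro x hx
      rw [mem_closedBall_zero_iff, ← sup_arg]
      exact (h4 x hx _).trans (hbd _)
    have hnn : 0 ≤ J + ε := by
      -- `K` is nonempty
      obtain ⟨x, hx⟩ := hne
      have i1 : ∫ t in (0 : ℝ)..2 * π, sup t x ≤ ∫ t in (0 : ℝ)..2 * π, B t := by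
        refine intervalIntegral.integral_mono_on hpi.le ?_ (hB.intervalIntegrable _ _) ?_
        · refine Continuous.intervalIntegrable ?_ _ _
          unfold sup
          fun_prop
        · intro t _
          exact h x hx t
      have i2 : ∫ t in (0 : ℝ)..2 * π, sup t x = 0 := by
        simp_rw [sup_eq]
        rw [intervalIntegral.integral_add (Continuous.intervalIntegrable (by fun_prop) _ _)
          (Continuous.intervalIntegrable (by fun_prop) _ _)]
        simp
      rw [i2] at i1
      have : 0 ≤ J := by rw [hJ]; positivity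
      linarith
    refine ⟨hnn, ?_⟩
    have hv : volume K ≤ volume (closedBall (0 : ℂ) (J + ε)) := h5.trans (measure_mono hsub)
    rw [Complex.volume_closedBall] at hv
    have hv2 := ENNReal.toReal_mono (by finiteness) hv
    rw [ENNReal.toReal_mul, ENNReal.toReal_pow, ENNReal.toReal_ofReal hnn] at hv2
    rw [mul_comm]
    simpa using hv2
  constructor
  · refine le_of_forall_pos_le_add ?_
    intro ε hε
    exact (key ε hε).1
  · have ht : Filter.Tendsto (fun ε : ℝ => π * (J + ε) ^ 2) (nhdsWithin 0 (Ioi 0))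
        (nhds (π * (J + 0) ^ 2)) := by
      refine Filter.Tendsto.mono_left ?_ nhdsWithin_le_nhds
      exact (by fun_prop : Continuous fun ε : ℝ => π * (J + ε) ^ 2).tendsto 0
    rw [add_zero] at ht
    refine ge_of_tendsto ht ?_
    filter_upwards [self_mem_nhdsWithin] with ε hε
    exact (key ε hε).2

end Pool.Agent.R252.AC
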